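import Mathlib
import Pool.Agent.H893R3.Misere
import Pool.Agent.H893R3.PeriodHeaps

/-!
# Every period occurs in a misere quotient

For every `p ≥ 1` there is a set `A` of finite impartial games, closed under sums and options,
whose misere quotient contains an element of period exactly `p`.

For `p ≥ 2` the set `A` consists of the positions of the heap game with heaps
`a = {0}`, `b = {0, a}`, `c = {a, b, 2b, 3b}`, `d = {a + 2c, b + 2c, (2p+1)c}`,
and the class of `d` has index one and period `p`.
-/

namespace Pool.Agent.Results.MP_bc0e65_co.EveryPeriod

open Pool.Agent.H893R3

/-- For every `p ≥ 1` some misere quotient contains an element of period exactly `p`. -/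
theorem result : ∀ p : ℕ, 1 ≤ p →
    ∃ (A : ClosedSet) (x : MisereQuotient A), HasPeriod x p :=
  every_period

end Pool.Agent.Results.MP_bc0e65_co.EveryPeriod
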